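import Pool.Agent.Work.MP_ac1f36_co.Core

/-! A Davenport-Schinzel sequence of order 3 that never occurs along a lower envelope of
segments. -/

namespace Pool.Agent.Results.MP_ac1f36_co.ForbiddenWord

/-- Davenport-Schinzel sequence of order 3: neighbours differ and there is no subsequence
`p q p q p` with `p ≠ q`. -/
def IsDS3 {α : Type} (U : List α) : Prop :=
  U.IsChain (· ≠ ·) ∧ ∀ p q : α, p ≠ q → ¬ [p, q, p, q, p].Sublist U

/-- The word, of length 42 over 16 symbols. -/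
def word : List (Fin 16) :=
  [0, 1, 2, 0, 3, 4, 5, 3, 0, 2, 6, 7, 1, 8, 9, 7, 2, 3, 10, 7, 9, 5, 11, 4, 12, 13, 11, 5, 6, 14,
    11, 8, 13, 15, 12, 9, 10, 12, 15, 13, 14, 15]

/-- Among the functions `x ↦ a j * x + b j` on `I j` that are defined at `x`, the function `i` is
the lowest one, ties being broken in favour of smaller priority `π`. -/
def Lowest {ι : Type} (a b : ι → ℝ) (I : ι → Set ℝ) (π : ι → ℝ) (i : ι) (x : ℝ) : Prop :=
  x ∈ I i ∧ ∀ j, j ≠ i → x ∈ I j →
    a i * x + b i < a j * x + b j ∨ (a i * x + b i = a j * x + b j ∧ π i < π j)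

open Pool.Agent.Work.MP_ac1f36_co in
theorem result : IsDS3 word ∧ (∀ i, i ∈ word) ∧
    ∀ (ι : Type) (φ : Fin 16 → ι), Function.Injective φ →
      ∀ (a b : ι → ℝ) (I : ι → Set ℝ), (∀ i, (I i).OrdConnected) → ∀ π : ι → ℝ,
        ¬ ∃ s : Fin word.length → ℝ, StrictMono s ∧
          ∀ k, Lowest a b I π (φ (word.get k)) (s k) := by
  refine ⟨⟨by decide +kernel, by decide +kernel⟩, by decide +kernel, ?_⟩
  rintro ι φ hφ a b I hI π ⟨s, hs, h⟩
  have hW : ∀ k : Fin 42, word.get k = W k := by decide +kernel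
  refine core_tie (a ∘ φ) (b ∘ φ) (π ∘ φ) s (fun i k hik => hs hik) ?_
  rintro i k j p q ⟨hik, hkj, hi, hj, hk, hne⟩
  have h1 := (h i).1
  have h2 := (h j).1
  have h3 := (h k).2 (φ q)
  rw [hW, hi] at h1
  rw [hW, hj] at h2
  rw [hW, hk] at h3
  exact h3 (hφ.ne hne) ((hI _).out h1 h2 ⟨(hs hik).le, (hs hkj).le⟩)

end Pool.Agent.Results.MP_ac1f36_co.ForbiddenWord
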